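import Mathlib
import Pool.Agent.helper84.QD.Final

/-!
# Conditions (DC) and (DCR) are equivalent, for every Jordan curve in the sphere
-/

open Metric Set Topology
open scoped Manifold ContDiff ENNReal

namespace Pool.Agent.Results.MP_747ad5_an.DiscVersusSurface

/-- The map `z ↦ 1/z` of the Riemann sphere `OnePoint ℂ` (it exchanges `0` and `∞`). -/
noncomputable def sinv (p : OnePoint ℂ) : OnePoint ℂ :=
  OnePoint.elim p ((0 : ℂ) : OnePoint ℂ)
    (fun z => if z = 0 then OnePoint.infty else ((z⁻¹ : ℂ) : OnePoint ℂ))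

/-- `F` is holomorphic at `z` as a map to the Riemann sphere: near `z` it is `g` or `1/g` for a
function `g` holomorphic at `z`. -/
def HolAt (F : ℂ → OnePoint ℂ) (z : ℂ) : Prop :=
  ∃ g : ℂ → ℂ, AnalyticAt ℂ g z ∧
    ((∀ᶠ w in 𝓝 z, F w = ((g w : ℂ) : OnePoint ℂ)) ∨
      (∀ᶠ w in 𝓝 z, F w = sinv ((g w : ℂ) : OnePoint ℂ)))

/-- The set of connected components of a subset `S`. -/
def Comps {X : Type*} [TopologicalSpace X] (S : Set X) : Set (Set X) :=
  {C | ∃ x ∈ S, C = connectedComponentIn S x}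

/-- Jordan curves in the sphere: injective continuous images of the circle. Every quasicircle,
being the image of a circle under a homeomorphism of the sphere, is one. -/
def IsJordanCurve (Γ : Set (OnePoint ℂ)) : Prop :=
  ∃ e : Circle → OnePoint ℂ, Continuous e ∧ Function.Injective e ∧ range e = Γ

/-- `∑ diam f⁻¹(C)`, the sum of the Euclidean diameters of the sets `{z ∈ Δ | f z ∈ C}`, where
`Δ` is the open unit disk and `C` runs through the connected components of `S`. -/
noncomputable def diamSum {X : Type*} [TopologicalSpace X] (S : Set X) (f : ℂ → X) : ℝ≥0∞ :=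
  ∑' C : Comps S, Metric.ediam {z ∈ ball (0 : ℂ) 1 | f z ∈ C.1}

/-- The estimate of condition (DC) with the constant `A`: `D` is a simply connected domain in the
sphere and `f` is a conformal map of the unit disk onto `D`. -/
def DCWith (Γ : Set (OnePoint ℂ)) (A : ℝ) : Prop :=
  ∀ D : Set (OnePoint ℂ), IsOpen D → IsSimplyConnected D →
    ∀ f : ℂ → OnePoint ℂ, (∀ z ∈ ball (0 : ℂ) 1, HolAt f z) → BijOn f (ball 0 1) D →
      diamSum (Γ ∩ D) f ≤ ENNReal.ofReal A

/-- Condition (DC). -/
def DC (Γ : Set (OnePoint ℂ)) : Prop := ∃ A : ℝ, DCWith Γ A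

/-- `π` is a holomorphic map of the Riemann surface `R` to the sphere. -/
def SurfHol {R : Type} [TopologicalSpace R] [ChartedSpace ℂ R] (π : R → OnePoint ℂ) : Prop :=
  ∀ x : R, HolAt (fun w => π ((chartAt ℂ x).symm w)) (chartAt ℂ x x)

/-- The estimate of condition (DCR) with the constant `A`: `R` is a simply connected Riemann
surface, `π` its nonconstant holomorphic projection to the sphere, each point of `Γ` has at most
one preimage under `π`, and `f` is a conformal map of the unit disk onto `R`. -/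
def DCRWith (Γ : Set (OnePoint ℂ)) (A : ℝ) : Prop :=
  ∀ (R : Type) [TopologicalSpace R] [T2Space R] [SimplyConnectedSpace R]
    [ChartedSpace ℂ R] [IsManifold 𝓘(ℂ, ℂ) ω R] (π : R → OnePoint ℂ),
    SurfHol π → (∃ x y, π x ≠ π y) → (∀ x y, π x ∈ Γ → π x = π y → x = y) →
    ∀ f : ℂ → R, ContMDiffOn 𝓘(ℂ, ℂ) 𝓘(ℂ, ℂ) ω f (ball 0 1) → BijOn f (ball 0 1) univ →
      diamSum (π ⁻¹' Γ) f ≤ ENNReal.ofReal A

/-- Condition (DCR). -/
def DCR (Γ : Set (OnePoint ℂ)) : Prop := ∃ A : ℝ, DCRWith Γ A

/-- **Main result.** For every Jordan curve `Γ` in the Riemann sphere, in particular for every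
quasicircle, (DC) and (DCR) are equivalent; moreover, with a constant `C` that does not depend on
`Γ`, the estimate (DC) with constant `A ≥ 0` implies the estimate (DCR) with constant
`C (A + 1)`. -/
theorem result : ∃ C : ℝ, ∀ Γ : Set (OnePoint ℂ), IsJordanCurve Γ →
    (DC Γ ↔ DCR Γ) ∧ ∀ A : ℝ, 0 ≤ A → DCWith Γ A → DCRWith Γ (C * (A + 1)) :=
  Pool.Agent.helper84.QD.main

end Pool.Agent.Results.MP_747ad5_an.DiscVersusSurface
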